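import Pool.Agent.H479R3.RC10

/-!
# The Helly space does not embed into `SC_p (ω^ω)`

The starting file `Pool.Agent.H479R3.RC10` proves (for the frozen statement S13340) that there is no
separately defined system of scatteredly continuous functions on `ω^ω` representing continuously
the set `Mon` of all monotone functions from the real line into `[0,1]`. The
restriction map sends `Mon` continuously into the Helly space, so a homeomorphism of the Helly space
onto a set of scatteredly continuous functions gives such a system, a contradiction.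
-/

set_option autoImplicit false

open Set Topology Filter

namespace Pool.Agent.Results.MP_36375e_gt.HellySpace

open Pool.Agent.H479R3.RC

/-- the Helly space: the set of all non-decreasing functions `[0,1] → [0,1]`, to be taken with the
topology of pointwise convergence -/
def Helly : Set (unitInterval → unitInterval) := {f | Monotone f}

/-- `f` is scatteredly continuous: for each nonempty `A` the restriction of `f` to `A` has a point of
continuity -/
def ScatCont {X : Type} [TopologicalSpace X] (f : X → ℝ) : Prop :=
  ∀ A : Set X, A.Nonempty → ∃ a ∈ A, ContinuousWithinAt f A a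

/-- the restriction of a monotone function on the real line with values in `[0,1]` -/
noncomputable def res (g : ℝ → ℝ) : unitInterval → unitInterval := fun t => projIcc 0 1 zero_le_one (g t)

theorem res_mem {g : ℝ → ℝ} (hg : g ∈ Mon) : res g ∈ Helly :=
  fun _ _ h => monotone_projIcc _ (hg.1 h)

theorem continuous_res : Continuous res :=
  continuous_pi fun t => continuous_projIcc.comp (continuous_apply (t : ℝ))

/-- an injective continuous map of `ω^ω` into `[0,1]` -/
theorem exists_p : ∃ p : (ℕ → ℕ) → ℝ, Continuous p ∧ Function.Injective p ∧ ∀ y, p y ∈ Icc (0 : ℝ) 1 := by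
  obtain ⟨q, hq, hqi⟩ := exists_pi
  refine ⟨fun y => Real.arctan (q y) / Real.pi + 1 / 2, by fun_prop, fun y z h => ?_, fun y => ?_⟩
  · have h1 : Real.arctan (q y) / Real.pi + 1 / 2 = Real.arctan (q z) / Real.pi + 1 / 2 := h
    have h2 : Real.arctan (q y) = Real.arctan (q z) := by
      have hpi := Real.pi_pos
      field_simp at h1
      linarith
    exact hqi (Real.arctan_injective h2)
  · have h1 := Real.neg_pi_div_two_lt_arctan (q y)
    have h2 := Real.arctan_lt_pi_div_two (q y)
    have hpi := Real.pi_pos
    have h3 : -(1 / 2) ≤ Real.arctan (q y) / Real.pi := by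
      rw [le_div_iff₀ hpi]
      linarith
    have h4 : Real.arctan (q y) / Real.pi ≤ 1 / 2 := by
      rw [div_le_iff₀ hpi]
      linarith
    exact ⟨by linarith, by linarith⟩

/-- **No compact subset of `SC_p (ω^ω)` is homeomorphic to the Helly space.** -/
theorem result : ¬ ∃ T : Set ((ℕ → ℕ) → ℝ), IsCompact T ∧ (∀ f ∈ T, ScatCont f) ∧
    Nonempty (Helly ≃ₜ T) := by
  classical
  rintro ⟨T, -, hTSC, ⟨φ⟩⟩
  obtain ⟨p, hpc, hpi, hp01⟩ := exists_p
  let E : (ℕ → ℕ) → (ℝ → ℝ) → ℝ := fun y g =>
    if h : res g ∈ Helly then (φ ⟨_, h⟩ : (ℕ → ℕ) → ℝ) y else 0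
  have hEval : ∀ g (hg : g ∈ Mon) y, E y g = (φ ⟨res g, res_mem hg⟩ : (ℕ → ℕ) → ℝ) y := by
    intro g hg y
    simp only [E, dif_pos (res_mem hg)]
  refine main_contra (E := E) ?_ ?_ hpc hpi ?_
  · intro y
    rw [continuousOn_iff_continuous_domRestrict]
    have h1 : Set.domRestrict Mon (E y) = fun g : Mon =>
        (φ ⟨res g, res_mem g.2⟩ : (ℕ → ℕ) → ℝ) y := by
      funext g
      exact hEval g g.2 y
    rw [h1]
    have h2 : Continuous (fun g : Mon => (⟨res g, res_mem g.2⟩ : Helly)) :=
      (continuous_res.comp continuous_subtype_val).subtype_mk _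
    exact (continuous_apply y).comp (continuous_subtype_val.comp (φ.continuous.comp h2))
  · intro g hg A hA
    have h1 : (fun y => E y g) = (φ ⟨res g, res_mem hg⟩ : (ℕ → ℕ) → ℝ) := by
      funext y
      exact hEval g hg y
    rw [h1]
    exact hTSC _ (φ ⟨res g, res_mem hg⟩).2 A hA
  · intro y
    by_contra hno
    push Not at hno
    have m0 : st1 (p y) 1 0 ∈ Mon := st1_mem le_rfl zero_le_one
    have m1 : st1 (p y) 1 1 ∈ Mon := st1_mem zero_le_one le_rfl
    have h1 : φ ⟨res (st1 (p y) 1 0), res_mem m0⟩ = φ ⟨res (st1 (p y) 1 1), res_mem m1⟩ := by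
      apply Subtype.ext
      funext a
      rw [← hEval _ m0 a, ← hEval _ m1 a]
      exact hno a
    have h2 := congrArg Subtype.val (φ.injective h1)
    have h3 := congrFun h2 ⟨p y, hp01 y⟩
    have h4 : projIcc (0 : ℝ) 1 zero_le_one (st1 (p y) 1 0 (p y))
        = projIcc 0 1 zero_le_one (st1 (p y) 1 1 (p y)) := h3
    have h5 : st1 (p y) 1 0 (p y) = 0 := by simp [st1]
    have h6 : st1 (p y) 1 1 (p y) = 1 := by simp [st1]
    rw [h5, h6, projIcc_left, projIcc_right] at h4
    have h7 := congrArg Subtype.val h4
    norm_num at h7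

end Pool.Agent.Results.MP_36375e_gt.HellySpace
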